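import Pool.Agent.helper15.XE.SpecL

/-!
# Project XE (MP_5628fe_nt), row EDP: the edges of the primes
-/

set_option autoImplicit false

namespace Pool.Agent.XE

open Finset ArithmeticFunction
open Pool.Agent.EC (tri TL wt mt Adm edg mnf tI tII tyI cvl KK yN UN)
open Pool.Agent.CH (rgh dl Mo ClP ClB)

theorem EDP_rgh_div {z : ℝ} {j c : ℕ} (h : rgh z j) (hc : c ∣ j) : rgh z c := by
  refine ⟨fun h0 => h.1 ?_, fun p hp hpc => h.2 p hp (hpc.trans hc)⟩
  rw [h0] at hc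
  exact Nat.eq_zero_of_zero_dvd hc

/-! ## asymptotic inequalities -/

theorem EDP_pow (k : ℕ) {r c : ℝ} (hr : 0 < r) (hc : 0 < c) :
    ∀ᶠ N : ℕ in Filter.atTop, Real.log N ^ k ≤ c * (N : ℝ) ^ r := by
  have h1 := (isLittleO_log_rpow_rpow_atTop (k : ℝ) hr).bound hc
  have h2 := (tendsto_natCast_atTop_atTop (R := ℝ)).eventually h1
  filter_upwards [h2, Filter.eventually_ge_atTop 3] with N h3 h4
  have h5 : (0 : ℝ) ≤ Real.log N := Real.log_natCast_nonneg N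
  rw [Real.rpow_natCast, Real.norm_of_nonneg (pow_nonneg h5 k),
    Real.norm_of_nonneg (Real.rpow_nonneg (Nat.cast_nonneg N) r)] at h3
  exact h3

theorem EDP_tlog : Filter.Tendsto (fun N : ℕ => Real.log N) Filter.atTop Filter.atTop :=
  Real.tendsto_log_atTop.comp (tendsto_natCast_atTop_atTop (R := ℝ))

theorem EDP_ll {r c : ℝ} (hr : 0 < r) (hc : 0 < c) :
    ∀ᶠ N : ℕ in Filter.atTop, Real.log (Real.log N) ≤ c * Real.log N ^ r := by
  have h1 := (isLittleO_log_rpow_atTop hr).bound hc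
  have h2 := EDP_tlog.eventually h1
  filter_upwards [h2] with N h3
  have h5 : (0 : ℝ) ≤ Real.log N := Real.log_natCast_nonneg N
  rw [Real.norm_of_nonneg (Real.rpow_nonneg h5 r)] at h3
  exact (le_abs_self _).trans h3

theorem EDP_y : ∀ᶠ N : ℕ in Filter.atTop, yN N ≤ (N : ℝ) ^ (1 / 20 : ℝ) := by
  have h1 := (tendsto_rpow_atTop (show (0 : ℝ) < 1 / 20 by norm_num)).eventually (Filter.eventually_ge_atTop (20 : ℝ))
  have h2 := EDP_tlog.eventually h1
  filter_upwards [h2, Filter.eventually_ge_atTop 3] with N h3 h4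
  have h5 : (0 : ℝ) < N := by
    have : 0 < N := by omega
    exact_mod_cast this
  have h6 : (0 : ℝ) < Real.log N := Real.log_pos (by
    have : 1 < N := by omega
    exact_mod_cast this)
  unfold yN dl
  rw [Real.rpow_def_of_pos h5]
  refine Real.exp_le_exp.2 ?_
  have h7 : Real.log N = Real.log N ^ (19 / 20 : ℝ) * Real.log N ^ (1 / 20 : ℝ) := by
    rw [← Real.rpow_add h6]
    norm_num
  have h8 : 0 < Real.log N ^ (19 / 20 : ℝ) := Real.rpow_pos_of_pos h6 _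
  have h9 : Real.log N ^ (19 / 20 : ℝ) * 20 ≤ Real.log N := by
    calc Real.log N ^ (19 / 20 : ℝ) * 20 ≤ Real.log N ^ (19 / 20 : ℝ) * Real.log N ^ (1 / 20 : ℝ) :=
          mul_le_mul_of_nonneg_left h3 h8.le
      _ = Real.log N := h7.symm
  linarith

/-! ## the rearrangement -/

open Classical in
/-- the divisors of the edge function -/
noncomputable def EDP_S (C N : ℕ) : Finset ℕ :=
  (Icc 1 (UN C N)).filter (fun c : ℕ => (N : ℝ) / Real.log N ^ (2 * C) ≤ (c : ℝ) ∧ rgh (yN N) c)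

open Classical in
theorem EDP_S_mem {C N c : ℕ} : c ∈ EDP_S C N ↔
    1 ≤ c ∧ c ≤ UN C N ∧ (N : ℝ) / Real.log N ^ (2 * C) ≤ (c : ℝ) ∧ rgh (yN N) c := by
  unfold EDP_S
  rw [Finset.mem_filter, Finset.mem_Icc]
  tauto

open Classical in
theorem EDP_pt {C N j : ℕ} (hL : 0 ≤ Real.log N)
    (h : |edg C N j| ≤ if rgh (yN N) j then 5 * Real.log N *
      (#(j.divisors.filter fun c => (N : ℝ) / Real.log N ^ (2 * C) ≤ (c : ℝ) ∧ c ≤ UN C N) : ℝ) else 0) :
    |edg C N j| ≤ 5 * Real.log N * ∑ c ∈ EDP_S C N, if (c ∣ j ∧ rgh (yN N) (j / c)) then (1 : ℝ) else 0 := by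
  have h4 : 0 ≤ 5 * Real.log N := by linarith
  by_cases hj : rgh (yN N) j
  · rw [if_pos hj] at h
    refine h.trans (mul_le_mul_of_nonneg_left ?_ h4)
    rw [Finset.sum_boole]
    refine Nat.cast_le.2 ((Finset.card_le_card (t := ((EDP_S C N).filter
      (fun c => c ∣ j ∧ rgh (yN N) (j / c))).image (fun c : ℕ => (c : ℝ))) fun x hx => ?_).trans
      Finset.card_image_le)
    obtain ⟨h0, h2, h3⟩ := Finset.mem_filter.1 hx
    obtain ⟨c, h1, hcx⟩ := Finset.mem_sup.1 (show x ∈ j.divisors.sup (fun a : ℕ => (pure (a : ℝ) : Finset ℝ)) from h0)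
    have hcx' : x = (c : ℝ) := Finset.mem_singleton.1 hcx
    subst hcx'
    have h5 := Nat.dvd_of_mem_divisors h1
    have h6 : 1 ≤ c := Nat.pos_of_mem_divisors h1
    exact Finset.mem_image.2 ⟨c, Finset.mem_filter.2 ⟨EDP_S_mem.2 ⟨h6, by exact_mod_cast h3, h2, EDP_rgh_div hj h5⟩, h5,
      EDP_rgh_div hj (Nat.div_dvd_of_dvd h5)⟩, rfl⟩
  · rw [if_neg hj] at h
    refine h.trans (mul_nonneg h4 (Finset.sum_nonneg fun c _ => ?_))
    split_ifs <;> norm_num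

open Classical in
theorem EDP_key {C N : ℕ} (hL : 0 ≤ Real.log N) (hE : ∀ j ∈ Z3 N, N ^ 3 < j →
    |edg C N j| ≤ if rgh (yN N) j then 5 * Real.log N *
      (#(j.divisors.filter fun c => (N : ℝ) / Real.log N ^ (2 * C) ≤ (c : ℝ) ∧ c ≤ UN C N) : ℝ) else 0)
    (w : ℕ → ℝ) (hw : ∀ j, 0 ≤ w j) (hw0 : ∀ j, w j ≠ 0 → N ^ 3 < j) (a : ℕ) :
    ∑ j ∈ Z3 N with j % 30 = a, |edg C N j| * w j ≤ 5 * Real.log N * ∑ c ∈ EDP_S C N,
      ∑ j ∈ Z3 N with c ∣ j ∧ rgh (yN N) (j / c) ∧ j % 30 = a, w j := by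
  have h1 : ∀ j ∈ (Z3 N).filter (fun j => j % 30 = a), |edg C N j| * w j ≤
      5 * Real.log N * ∑ c ∈ EDP_S C N, if (c ∣ j ∧ rgh (yN N) (j / c)) then w j else 0 := by
    intro j hj
    by_cases hj0 : w j = 0
    · rw [hj0, mul_zero]
      simp
    have h2 := mul_le_mul_of_nonneg_right (EDP_pt hL (hE j (Finset.mem_filter.1 hj).1 (hw0 j hj0))) (hw j)
    refine h2.trans (le_of_eq ?_)
    rw [mul_assoc, Finset.sum_mul]
    congr 1
    refine Finset.sum_congr rfl fun c _ => ?_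
    split_ifs <;> simp
  refine (Finset.sum_le_sum h1).trans (le_of_eq ?_)
  rw [← Finset.mul_sum, Finset.sum_comm]
  congr 1
  refine Finset.sum_congr rfl fun c _ => ?_
  rw [← Finset.sum_filter, Finset.filter_filter]
  refine Finset.sum_congr ?_ fun _ _ => rfl
  ext j
  simp only [Finset.mem_filter]
  tauto

theorem EDP_card (C N : ℕ) (hL : 0 ≤ Real.log N) : (#(EDP_S C N) : ℝ) ≤ (N : ℝ) * Real.log N ^ C := by
  have h1 : #(EDP_S C N) ≤ UN C N := by
    have h0 : EDP_S C N ⊆ Icc 1 (UN C N) := fun c hc => by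
      have := EDP_S_mem.1 hc
      exact Finset.mem_Icc.2 ⟨this.1, this.2.1⟩
    refine (Finset.card_le_card h0).trans ?_
    rw [Nat.card_Icc]
    omega
  have h2 : ((UN C N : ℕ) : ℝ) ≤ (N : ℝ) * Real.log N ^ C := by
    unfold UN
    exact Nat.floor_le (mul_nonneg (Nat.cast_nonneg N) (pow_nonneg hL C))
  exact (Nat.cast_le.2 h1).trans h2

open Classical in
/-- the estimate from COR and RCS -/
theorem EDP_core {C N : ℕ} {C₀ C' B : ℝ} (hC₀ : 0 < C₀) (hB : 0 ≤ B) (hN : 3 ≤ N)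
    (hE : ∀ j ∈ Z3 N, N ^ 3 < j →
    |edg C N j| ≤ if rgh (yN N) j then 5 * Real.log N *
      (#(j.divisors.filter fun c => (N : ℝ) / Real.log N ^ (2 * C) ≤ (c : ℝ) ∧ c ≤ UN C N) : ℝ) else 0)
    (hR : ∑ c ∈ EDP_S C N, 1 / (c : ℝ) ≤ C' * Real.log (Real.log N) / dl N)
    (w : ℕ → ℝ) (hw : ∀ j, 0 ≤ w j) (hw0 : ∀ j, w j ≠ 0 → N ^ 3 < j) (a : ℕ)
    (hc : ∀ c ∈ EDP_S C N, ∑ j ∈ Z3 N with c ∣ j ∧ rgh (yN N) (j / c) ∧ j % 30 = a, w j ≤
      C₀ * (N : ℝ) ^ 2 / (c * Real.log (yN N)) * B + (N : ℝ) ^ (9 / 10 : ℝ)) :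
    ∑ j ∈ Z3 N with j % 30 = a, |edg C N j| * w j ≤
      5 * (C₀ * C' * B * (N : ℝ) ^ 2 * (Real.log N * Real.log (Real.log N) / Real.log N ^ (19 / 10 : ℝ)) +
        (N : ℝ) ^ (19 / 10 : ℝ) * Real.log N ^ (C + 1)) := by
  have hNpos : (0 : ℝ) < N := by
    have : 0 < N := by omega
    exact_mod_cast this
  have hL : 0 < Real.log N := Real.log_pos (by
    have : 1 < N := by omega
    exact_mod_cast this)
  have hd : 0 < dl N := Real.rpow_pos_of_pos hL _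
  have hly : Real.log (yN N) = dl N := Real.log_exp _
  have hd2 : dl N * dl N = Real.log N ^ (19 / 10 : ℝ) := by
    unfold dl
    rw [← Real.rpow_add hL]
    norm_num
  have h1 := EDP_key hL.le hE w hw hw0 a
  have h2 : ∑ c ∈ EDP_S C N, ∑ j ∈ Z3 N with c ∣ j ∧ rgh (yN N) (j / c) ∧ j % 30 = a, w j ≤
      C₀ * (N : ℝ) ^ 2 / dl N * B * (C' * Real.log (Real.log N) / dl N) +
        (N : ℝ) * Real.log N ^ C * (N : ℝ) ^ (9 / 10 : ℝ) := by
    refine (Finset.sum_le_sum hc).trans ?_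
    rw [Finset.sum_add_distrib, Finset.sum_const, nsmul_eq_mul]
    refine add_le_add ?_ (mul_le_mul_of_nonneg_right (EDP_card C N hL.le) (Real.rpow_nonneg hNpos.le _))
    have h3 : ∑ c ∈ EDP_S C N, C₀ * (N : ℝ) ^ 2 / (c * Real.log (yN N)) * B =
        C₀ * (N : ℝ) ^ 2 / dl N * B * ∑ c ∈ EDP_S C N, 1 / (c : ℝ) := by
      rw [Finset.mul_sum]
      refine Finset.sum_congr rfl fun c hc' => ?_
      have h4 : (c : ℝ) ≠ 0 := by
        have h5 : 1 ≤ c := (EDP_S_mem.1 hc').1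
        have : c ≠ 0 := by omega
        exact_mod_cast this
      rw [hly]
      field_simp
    rw [h3]
    exact mul_le_mul_of_nonneg_left hR (by positivity)
  refine h1.trans ((mul_le_mul_of_nonneg_left h2 (by linarith)).trans (le_of_eq ?_))
  have h6 : (N : ℝ) * (N : ℝ) ^ (9 / 10 : ℝ) = (N : ℝ) ^ (19 / 10 : ℝ) := by
    nth_rewrite 1 [← Real.rpow_one (N : ℝ)]
    rw [← Real.rpow_add hNpos]
    norm_num
  rw [← hd2, ← h6]
  field_simp
  ring

/-! ## the weight 1 -/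

/-- the indicator function of `1` -/
def EDP_l (m : ℕ) : ℝ := if m = 1 then 1 else 0

theorem EDP_l_adm {Q : ℝ} (hQ : 1 ≤ Q) : Adm 1 Q EDP_l := by
  constructor
  · intro m
    unfold EDP_l
    split_ifs <;> norm_num
  · intro m hm
    have h1 : m = 1 := by
      by_contra h
      exact hm (if_neg h)
    subst h1
    exact ⟨squarefree_one, by norm_num, by exact_mod_cast hQ⟩

theorem EDP_l_wt {a : ℕ} (ha : 1 ≤ a) : wt EDP_l a = 1 := by
  unfold wt EDP_l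
  rw [Finset.sum_ite_eq', if_pos (Nat.one_mem_divisors.2 (by omega))]

theorem EDP_l_mt {Q : ℝ} (hQ : 1 ≤ Q) : mt Q EDP_l = 1 := by
  unfold Pool.Agent.EC.mt
  have h1 : (1 : ℕ) ∈ Icc 1 ⌊Q⌋₊ := Finset.mem_Icc.2 ⟨le_refl 1, Nat.le_floor (by exact_mod_cast hQ)⟩
  rw [Finset.sum_eq_single_of_mem 1 h1]
  · simp [EDP_l]
  · intro m _ hm
    simp [EDP_l, hm]

/-- **EDP** -/
theorem EDP (h1 : COR_stmt) (h2 : Pool.Agent.EC.RCS_stmt) (h3 : EDG_stmt) (h4 : Pool.Agent.EC.MTA_stmt) (h5 : WVB_stmt) :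
    EDP_stmt := by
  obtain ⟨C₀, hC₀, hcor⟩ := h1
  obtain ⟨N₆, -, hwvb⟩ := h5
  intro C ε' K hε' hK
  obtain ⟨C', hC', N₁, hN₁⟩ := h2 C
  obtain ⟨N₂, hN₂⟩ := h3 C
  obtain ⟨N₃, hN₃⟩ := hcor K hK
  obtain ⟨N₄, hN₄⟩ := hcor 1 one_pos
  have q1 : 0 < ε' / (10 * C₀ * C' * K) := by positivity
  have q2 : 0 < ε' / (300 * C₀ * C') := by positivity
  have E := (EDP_y.and ((EDP_pow C (show (0 : ℝ) < 1 / 5 by norm_num) one_pos).and
    ((EDP_pow (C + 2) (show (0 : ℝ) < 1 / 10 by norm_num) (show 0 < ε' / 10 by positivity)).and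
    ((EDP_pow (C + 1) (show (0 : ℝ) < 1 / 10 by norm_num) (show 0 < ε' / 300 by positivity)).and
    ((EDP_ll (show (0 : ℝ) < 9 / 10 by norm_num) q1).and
    (EDP_ll (show (0 : ℝ) < 9 / 10 by norm_num) q2))))))
  obtain ⟨N₅, hN₅⟩ := Filter.eventually_atTop.1 E
  refine ⟨max (max (max N₁ N₂) (max N₃ N₄)) (max (max N₅ N₆) 3), fun N hN l hl hwt hmt v hv => ?_⟩
  have g1 : N₁ ≤ N := (le_max_left _ _).trans ((le_max_left _ _).trans ((le_max_left _ _).trans hN))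
  have g2 : N₂ ≤ N := (le_max_right _ _).trans ((le_max_left _ _).trans ((le_max_left _ _).trans hN))
  have g3 : N₃ ≤ N := (le_max_left _ _).trans ((le_max_right _ _).trans ((le_max_left _ _).trans hN))
  have g4 : N₄ ≤ N := (le_max_right _ _).trans ((le_max_right _ _).trans ((le_max_left _ _).trans hN))
  have g5 : N₅ ≤ N := (le_max_left _ _).trans ((le_max_left _ _).trans ((le_max_right _ _).trans hN))
  have g7 : N₆ ≤ N := (le_max_right _ _).trans ((le_max_left _ _).trans ((le_max_right _ _).trans hN))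
  have g6 : 3 ≤ N := (le_max_right _ _).trans ((le_max_right _ _).trans hN)
  obtain ⟨e1, e2, e3, e4, e5, e6⟩ := hN₅ N g5
  have hwv := ((hwvb N g7).1 v hv).2.2.2
  have hw0 : ∀ j : ℕ, 0 ≤ wv N v j := fun j => (hwv j).1
  have hw1 : ∀ j : ℕ, wv N v j ≠ 0 → N ^ 3 < j := fun j hj => ((hwv j).2.2.1 hj).1
  have hNpos : (0 : ℝ) < N := by
    have : 0 < N := by omega
    exact_mod_cast this
  have hN1 : (1 : ℝ) ≤ N := by
    have : 1 ≤ N := by omega
    exact_mod_cast this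
  have hL : 0 < Real.log N := Real.log_pos (by
    have : 1 < N := by omega
    exact_mod_cast this)
  have hL19 : 0 < Real.log N ^ (19 / 10 : ℝ) := Real.rpow_pos_of_pos hL _
  have hLsplit : Real.log N ^ (19 / 10 : ℝ) = Real.log N * Real.log N ^ (9 / 10 : ℝ) := by
    nth_rewrite 2 [← Real.rpow_one (Real.log N)]
    rw [← Real.rpow_add hL]
    norm_num
  have hL9 : 0 < Real.log N ^ (9 / 10 : ℝ) := Real.rpow_pos_of_pos hL _
  have hNsplit : (N : ℝ) ^ 2 = (N : ℝ) ^ (19 / 10 : ℝ) * (N : ℝ) ^ (1 / 10 : ℝ) := by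
    rw [← Real.rpow_add hNpos]
    norm_num
  have hN19 : 0 < (N : ℝ) ^ (19 / 10 : ℝ) := Real.rpow_pos_of_pos hNpos _
  have hS : ∀ c ∈ EDP_S C N, (c : ℝ) ≤ (N : ℝ) ^ (6 / 5 : ℝ) ∧ rgh (yN N) c := by
    intro c hc
    obtain ⟨h1, h2, _, h3⟩ := EDP_S_mem.1 hc
    refine ⟨?_, h3⟩
    have h4 : (c : ℝ) ≤ ((UN C N : ℕ) : ℝ) := Nat.cast_le.2 h2
    have h5 : ((UN C N : ℕ) : ℝ) ≤ (N : ℝ) * Real.log N ^ C := by
      unfold UN
      exact Nat.floor_le (mul_nonneg (Nat.cast_nonneg N) (pow_nonneg hL.le C))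
    have h6 : (N : ℝ) * Real.log N ^ C ≤ (N : ℝ) * (N : ℝ) ^ (1 / 5 : ℝ) := by
      rw [one_mul] at e2
      exact mul_le_mul_of_nonneg_left e2 hNpos.le
    have h7 : (N : ℝ) * (N : ℝ) ^ (1 / 5 : ℝ) = (N : ℝ) ^ (6 / 5 : ℝ) := by
      nth_rewrite 1 [← Real.rpow_one (N : ℝ)]
      rw [← Real.rpow_add hNpos]
      norm_num
    linarith
  have hR : ∑ c ∈ EDP_S C N, 1 / (c : ℝ) ≤ C' * Real.log (Real.log N) / dl N := hN₁ N g1
  have hly : Real.log (yN N) = dl N := Real.log_exp _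
  have hd : 0 < dl N := Real.rpow_pos_of_pos hL _
  constructor
  · have h1 := EDP_core (B := K / Real.log N) hC₀ (by positivity) g6 (hN₂ N g2) hR
      (fun j => wv N v j * wt l (j + 6)) (fun j => mul_nonneg (hw0 j) (hwt _ (by omega)))
      (fun j hj => hw1 j (left_ne_zero_of_mul hj)) 1
      (fun c hc => by
        refine ((hN₃ N g3 (yN N) le_rfl e1 l hl hwt v hv c 1 (hS c hc).1 (hS c hc).2).1).trans ?_
        refine add_le_add_left (mul_le_mul_of_nonneg_left hmt ?_) _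
        rw [hly]
        positivity)
    have h2 : ∑ j ∈ Z3 N with j % 30 = 1, |edg C N j| * wv N v j * wt l (j + 6) =
        ∑ j ∈ Z3 N with j % 30 = 1, |edg C N j| * (wv N v j * wt l (j + 6)) :=
      Finset.sum_congr rfl fun j _ => mul_assoc _ _ _
    rw [h2]
    refine h1.trans ?_
    have h3 : 5 * (C₀ * C' * (K / Real.log N) * (N : ℝ) ^ 2 *
        (Real.log N * Real.log (Real.log N) / Real.log N ^ (19 / 10 : ℝ))) ≤
        ε' * (N : ℝ) ^ 2 / Real.log N / 2 := by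
      rw [hLsplit]
      have h4 : 5 * (C₀ * C' * (K / Real.log N) * (N : ℝ) ^ 2 *
        (Real.log N * Real.log (Real.log N) / (Real.log N * Real.log N ^ (9 / 10 : ℝ)))) =
        5 * C₀ * C' * K * ((N : ℝ) ^ 2 / Real.log N) * (Real.log (Real.log N) / Real.log N ^ (9 / 10 : ℝ)) := by
        field_simp
      rw [h4]
      have h5 : Real.log (Real.log N) / Real.log N ^ (9 / 10 : ℝ) ≤ ε' / (10 * C₀ * C' * K) := by
        rw [div_le_iff₀ hL9]
        exact e5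
      have h6 : 0 ≤ 5 * C₀ * C' * K * ((N : ℝ) ^ 2 / Real.log N) := by positivity
      refine (mul_le_mul_of_nonneg_left h5 h6).trans (le_of_eq ?_)
      field_simp
      norm_num
    have h7 : 5 * ((N : ℝ) ^ (19 / 10 : ℝ) * Real.log N ^ (C + 1)) ≤ ε' * (N : ℝ) ^ 2 / Real.log N / 2 := by
      rw [div_div, le_div_iff₀ (by positivity), hNsplit]
      calc 5 * ((N : ℝ) ^ (19 / 10 : ℝ) * Real.log N ^ (C + 1)) * (Real.log N * 2) =
          10 * (N : ℝ) ^ (19 / 10 : ℝ) * Real.log N ^ (C + 2) := by ring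
        _ ≤ 10 * (N : ℝ) ^ (19 / 10 : ℝ) * (ε' / 10 * (N : ℝ) ^ (1 / 10 : ℝ)) :=
          mul_le_mul_of_nonneg_left e3 (by positivity)
        _ = ε' * ((N : ℝ) ^ (19 / 10 : ℝ) * (N : ℝ) ^ (1 / 10 : ℝ)) := by ring
    linarith
  · have hQ1 : (1 : ℝ) ≤ QV N := by
      unfold QV
      exact Real.one_le_rpow hN1 (by norm_num)
    have hwt1 : ∀ a : ℕ, 1 ≤ a → 0 ≤ wt EDP_l a := fun a ha => by
      rw [EDP_l_wt ha]
      exact zero_le_one
    have h1 : ∀ a : ℕ, ∑ j ∈ Z3 N with j % 30 = a, |edg C N j| * (wv N v j * wt EDP_l (j + 6)) ≤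
        ε' * (N : ℝ) ^ 2 / 30 := by
      intro a
      have h2 := EDP_core (B := 1) hC₀ zero_le_one g6 (hN₂ N g2) hR
        (fun j => wv N v j * wt EDP_l (j + 6)) (fun j => mul_nonneg (hw0 j) (hwt1 _ (by omega)))
        (fun j hj => hw1 j (left_ne_zero_of_mul hj)) a
        (fun c hc => by
          have h3 := (hN₄ N g4 (yN N) le_rfl e1 EDP_l (EDP_l_adm hQ1) hwt1 v hv c a (hS c hc).1 (hS c hc).2).1
          rw [EDP_l_mt hQ1] at h3
          exact h3)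
      refine h2.trans ?_
      have h3 : 5 * (C₀ * C' * 1 * (N : ℝ) ^ 2 *
          (Real.log N * Real.log (Real.log N) / Real.log N ^ (19 / 10 : ℝ))) ≤
          ε' * (N : ℝ) ^ 2 / 60 := by
        rw [hLsplit]
        have h4 : 5 * (C₀ * C' * 1 * (N : ℝ) ^ 2 *
          (Real.log N * Real.log (Real.log N) / (Real.log N * Real.log N ^ (9 / 10 : ℝ)))) =
          5 * C₀ * C' * (N : ℝ) ^ 2 * (Real.log (Real.log N) / Real.log N ^ (9 / 10 : ℝ)) := by
          field_simp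
        rw [h4]
        have h5 : Real.log (Real.log N) / Real.log N ^ (9 / 10 : ℝ) ≤ ε' / (300 * C₀ * C') := by
          rw [div_le_iff₀ hL9]
          exact e6
        have h6 : 0 ≤ 5 * C₀ * C' * (N : ℝ) ^ 2 := by positivity
        refine (mul_le_mul_of_nonneg_left h5 h6).trans (le_of_eq ?_)
        field_simp
        norm_num
      have h7 : 5 * ((N : ℝ) ^ (19 / 10 : ℝ) * Real.log N ^ (C + 1)) ≤ ε' * (N : ℝ) ^ 2 / 60 := by
        rw [hNsplit]
        calc 5 * ((N : ℝ) ^ (19 / 10 : ℝ) * Real.log N ^ (C + 1)) =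
            5 * (N : ℝ) ^ (19 / 10 : ℝ) * Real.log N ^ (C + 1) := by ring
          _ ≤ 5 * (N : ℝ) ^ (19 / 10 : ℝ) * (ε' / 300 * (N : ℝ) ^ (1 / 10 : ℝ)) :=
            mul_le_mul_of_nonneg_left e4 (by positivity)
          _ = ε' * ((N : ℝ) ^ (19 / 10 : ℝ) * (N : ℝ) ^ (1 / 10 : ℝ)) / 60 := by ring
      linarith
    have h8 : ∑ j ∈ Z3 N, |edg C N j| * wv N v j =
        ∑ a ∈ range 30, ∑ j ∈ Z3 N with j % 30 = a, |edg C N j| * (wv N v j * wt EDP_l (j + 6)) := by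
      rw [Finset.sum_fiberwise_of_maps_to (fun j _ => Finset.mem_range.2 (Nat.mod_lt j (by norm_num)))]
      exact Finset.sum_congr rfl fun j _ => by rw [EDP_l_wt (by omega), mul_one]
    rw [h8]
    refine (Finset.sum_le_sum fun a _ => h1 a).trans (le_of_eq ?_)
    rw [Finset.sum_const, Finset.card_range, nsmul_eq_mul]
    push_cast
    ring

end Pool.Agent.XE
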