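import Pool.Agent.helper15.XE.SpecL

/-!
# Project XE (MP_5628fe_nt): row COR
-/

set_option autoImplicit false

namespace Pool.Agent.XE

open Finset ArithmeticFunction
open Pool.Agent.EC (tri TL wt mt Adm edg mnf tI tII tyI cvl KK yN UN)
open Pool.Agent.CH (rgh dl Mo ClP ClB)

/-- the integers in the range of the windows -/
private def COR_W (N : ℕ) : Finset ℕ := (Z3 N).filter (fun j => N ^ 3 < j)

/-- `wt` as a sum over an interval -/
private theorem COR_wt (K Q : ℝ) (l : ℕ → ℝ) (hl : Adm K Q l) (a : ℕ) (ha : 1 ≤ a) :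
    wt l a = ∑ m ∈ Icc 1 ⌊Q⌋₊, if m ∣ a then l m else 0 := by
  unfold wt
  rw [← Finset.sum_filter]
  symm
  apply Finset.sum_subset
  · intro m hm
    rw [Finset.mem_filter] at hm
    exact Nat.mem_divisors.2 ⟨hm.2, by omega⟩
  · intro m hm hm'
    by_contra h
    apply hm'
    have h1 := Nat.mem_divisors.1 hm
    rw [Finset.mem_filter, Finset.mem_Icc]
    exact ⟨⟨Nat.pos_of_mem_divisors hm, Nat.le_floor (hl.2 m h).2.2⟩, h1.1⟩

/-- rough numbers are prime to `30` -/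
private theorem COR_cop (z : ℝ) (hz : 5 ≤ z) (d : ℕ) (hd : rgh z d) : Nat.Coprime d 30 := by
  apply Nat.Coprime.symm
  rw [show (30 : ℕ) = 2 * 3 * 5 by norm_num]
  have h : ∀ p : ℕ, p.Prime → p ≤ 5 → Nat.Coprime p d := by
    intro p hp h5
    rw [Nat.Prime.coprime_iff_not_dvd hp]
    intro h
    have h1 := hd.2 p hp h
    have h2 : (p : ℝ) ≤ 5 := by exact_mod_cast h5
    linarith
  exact Nat.Coprime.mul_left (Nat.Coprime.mul_left (h 2 (by norm_num) (by norm_num))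
    (h 3 (by norm_num) (by norm_num))) (h 5 (by norm_num) (by norm_num))

/-- the local factors at the divisor -/
private theorem COR_prod (N : ℕ) (z : ℝ) (hN : 2 ≤ N) (hz : 2 + 4 * Real.log N ≤ z) (d : ℕ)
    (hd : rgh z d) (hdN : (d : ℝ) ≤ (N : ℝ) ^ (6 / 5 : ℝ)) :
    ∏ p ∈ d.primeFactors, ((p : ℝ) - 1) / (p - 2) ≤ 2 := by
  have hN1 : (1 : ℝ) < N := by exact_mod_cast (by omega : 1 < N)
  have hL : 0 < Real.log N := Real.log_pos hN1
  have hz2 : 0 < z - 2 := by linarith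
  have h1 : ∏ p ∈ d.primeFactors, ((p : ℝ) - 1) / (p - 2) ≤
      ∏ p ∈ d.primeFactors, Real.exp (1 / (z - 2)) := by
    apply Finset.prod_le_prod
    · intro p hp
      have h2 := hd.2 p (Nat.prime_of_mem_primeFactors hp) (Nat.dvd_of_mem_primeFactors hp)
      exact div_nonneg (by linarith) (by linarith)
    · intro p hp
      have h2 := hd.2 p (Nat.prime_of_mem_primeFactors hp) (Nat.dvd_of_mem_primeFactors hp)
      have h3 : ((p : ℝ) - 1) / (p - 2) = 1 + 1 / (p - 2) := by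
        have : (p : ℝ) - 2 ≠ 0 := by linarith
        field_simp
        ring
      rw [h3]
      have h4 : 1 / ((p : ℝ) - 2) ≤ 1 / (z - 2) := one_div_le_one_div_of_le hz2 (by linarith)
      have h5 := Real.add_one_le_exp (1 / (z - 2))
      linarith
  rw [Finset.prod_const, ← Real.exp_nat_mul] at h1
  refine h1.trans ?_
  -- number of prime factors
  have h6 : 2 ^ #d.primeFactors ≤ d := by
    have h7 : 2 ^ #d.primeFactors ≤ ∏ p ∈ d.primeFactors, p := by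
      apply Finset.pow_card_le_prod
      intro p hp
      exact (Nat.prime_of_mem_primeFactors hp).two_le
    exact h7.trans (Nat.le_of_dvd (Nat.pos_of_ne_zero hd.1) (Nat.prod_primeFactors_dvd d))
  have h8 : (#d.primeFactors : ℝ) * Real.log 2 ≤ 6 / 5 * Real.log N := by
    have h9 : ((2 : ℝ) ^ #d.primeFactors) ≤ (N : ℝ) ^ (6 / 5 : ℝ) := by
      refine le_trans ?_ hdN
      exact_mod_cast h6
    have h10 := Real.log_le_log (by positivity) h9
    rwa [Real.log_pow, Real.log_rpow (by linarith)] at h10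
  have h11 : (#d.primeFactors : ℝ) ≤ 2 * Real.log N := by
    have := Real.log_two_gt_d9
    nlinarith [Nat.cast_nonneg (α := ℝ) #d.primeFactors]
  have h12 : (#d.primeFactors : ℝ) * (1 / (z - 2)) ≤ 1 / 2 := by
    rw [mul_one_div, div_le_iff₀ hz2]
    linarith
  refine (Real.exp_le_exp.2 h12).trans ?_
  have h13 : Real.exp (1 / 2) ^ 2 = Real.exp 1 := by
    rw [← Real.exp_nat_mul]
    norm_num
  have h14 := Real.exp_one_lt_d9
  nlinarith [Real.exp_pos (1 / 2)]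

open Classical in
private theorem COR_core (N : ℕ) (v : ℝ) (s : ℕ → ℕ) (K Q z CT : ℝ) (l lam : ℕ → ℝ) (d a : ℕ)
    (hQ : 0 ≤ Q) (hz : 5 ≤ z) (hCT : 0 < CT) (hK : 0 < K)
    (hf : ∀ j : ℕ, 0 ≤ wv N v j)
    (hl : Adm K Q l) (hw : ∀ a : ℕ, 1 ≤ a → 0 ≤ wt l a)
    (hlam : Adm 1 z lam) (hwl : ∀ a : ℕ, 1 ≤ a → 0 ≤ wt lam a)
    (hwr : ∀ a : ℕ, rgh z a → 1 ≤ wt lam a) (hd : rgh z d)
    (hs1 : ∀ j ∈ COR_W N, 1 ≤ s j)
    (hs2 : ∀ e m : ℕ, 1 ≤ e → 1 ≤ m → Nat.Coprime e 30 → Nat.Coprime m 30 →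
      |∑ j ∈ COR_W N with e ∣ j ∧ m ∣ s j ∧ j % 30 = a, wv N v j -
        (if Nat.Coprime m e then Xv N v / (30 * (e : ℝ) * m) else 0)| ≤ CT) :
    ∑ j ∈ COR_W N with d ∣ j ∧ rgh z (j / d) ∧ j % 30 = a, wv N v j * wt l (s j) ≤
      Xv N v / (30 * d) * (∑ m ∈ Icc 1 ⌊Q⌋₊ with Nat.Coprime m d, ∑ t ∈ Icc 1 ⌊z⌋₊ with Nat.Coprime m t,
        l m * lam t / ((m : ℝ) * t)) + CT * K * (Q * z) := by
  have hd1 : 1 ≤ d := Nat.pos_of_ne_zero hd.1
  have hd30 := COR_cop z hz d hd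
  have hj1 : ∀ j ∈ COR_W N, 1 ≤ j := by
    intro j hj
    unfold COR_W Z3 at hj
    rw [Finset.mem_filter, Finset.mem_Ioc] at hj
    omega
  -- the rough condition
  have step1 : ∑ j ∈ COR_W N with d ∣ j ∧ rgh z (j / d) ∧ j % 30 = a, wv N v j * wt l (s j) ≤
      ∑ j ∈ COR_W N with d ∣ j ∧ j % 30 = a, wv N v j * wt l (s j) * wt lam (j / d) := by
    have h1 : ∑ j ∈ COR_W N with d ∣ j ∧ rgh z (j / d) ∧ j % 30 = a, wv N v j * wt l (s j) ≤
        ∑ j ∈ COR_W N with d ∣ j ∧ rgh z (j / d) ∧ j % 30 = a, wv N v j * wt l (s j) * wt lam (j / d) := by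
      apply Finset.sum_le_sum
      intro j hj
      rw [Finset.mem_filter] at hj
      have h2 := hwr _ hj.2.2.1
      have h3 : 0 ≤ wv N v j * wt l (s j) := mul_nonneg (hf j) (hw _ (hs1 j hj.1))
      nlinarith
    refine h1.trans ?_
    apply Finset.sum_le_sum_of_subset_of_nonneg
    · intro j hj
      rw [Finset.mem_filter] at hj ⊢
      exact ⟨hj.1, hj.2.1, hj.2.2.2⟩
    · intro j hj _
      rw [Finset.mem_filter] at hj
      have h4 : 1 ≤ j / d := Nat.div_pos (Nat.le_of_dvd (hj1 j hj.1) hj.2.1) hd1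
      exact mul_nonneg (mul_nonneg (hf j) (hw _ (hs1 j hj.1))) (hwl _ h4)
  refine step1.trans ?_
  -- expansion
  have step2 : ∑ j ∈ COR_W N with d ∣ j ∧ j % 30 = a, wv N v j * wt l (s j) * wt lam (j / d) =
      ∑ m ∈ Icc 1 ⌊Q⌋₊, ∑ t ∈ Icc 1 ⌊z⌋₊, l m * lam t *
        ∑ j ∈ COR_W N with d * t ∣ j ∧ m ∣ s j ∧ j % 30 = a, wv N v j := by
    have h1 : ∀ j ∈ (COR_W N).filter (fun j => d ∣ j ∧ j % 30 = a),
        wv N v j * wt l (s j) * wt lam (j / d) = ∑ m ∈ Icc 1 ⌊Q⌋₊, ∑ t ∈ Icc 1 ⌊z⌋₊,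
          if t ∣ j / d ∧ m ∣ s j then l m * lam t * wv N v j else 0 := by
      intro j hj
      rw [Finset.mem_filter] at hj
      have h4 : 1 ≤ j / d := Nat.div_pos (Nat.le_of_dvd (hj1 j hj.1) hj.2.1) hd1
      rw [COR_wt K Q l hl (s j) (hs1 j hj.1), COR_wt 1 z lam hlam (j / d) h4, mul_assoc,
        Finset.sum_mul_sum, Finset.mul_sum]
      apply Finset.sum_congr rfl
      intro m _
      rw [Finset.mul_sum]
      apply Finset.sum_congr rfl
      intro t _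
      by_cases h5 : m ∣ s j
      · by_cases h6 : t ∣ j / d
        · rw [if_pos h5, if_pos h6, if_pos ⟨h6, h5⟩]
          ring
        · rw [if_neg h6, if_neg (show ¬ (t ∣ j / d ∧ m ∣ s j) from fun h => h6 h.1), mul_zero,
            mul_zero]
      · rw [if_neg h5, if_neg (show ¬ (t ∣ j / d ∧ m ∣ s j) from fun h => h5 h.2), zero_mul,
          mul_zero]
    rw [Finset.sum_congr rfl h1, Finset.sum_comm]
    apply Finset.sum_congr rfl
    intro m _
    rw [Finset.sum_comm]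
    apply Finset.sum_congr rfl
    intro t _
    rw [← Finset.sum_filter, Finset.filter_filter, Finset.mul_sum]
    apply Finset.sum_congr
    · ext j
      rw [Finset.mem_filter, Finset.mem_filter]
      constructor
      · rintro ⟨h2, ⟨h3, h4⟩, h5, h6⟩
        refine ⟨h2, ?_, h6, h4⟩
        exact (Nat.dvd_div_iff_mul_dvd h3).1 h5
      · rintro ⟨h2, h3, h4, h5⟩
        have h6 : d ∣ j := (Dvd.intro t rfl).trans h3
        exact ⟨h2, ⟨h6, h5⟩, (Nat.dvd_div_iff_mul_dvd h6).2 h3, h4⟩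
    · intro j _
      rfl
  rw [step2]
  -- LCT
  have step3 : ∀ m ∈ Icc 1 ⌊Q⌋₊, ∀ t ∈ Icc 1 ⌊z⌋₊, l m * lam t *
        ∑ j ∈ COR_W N with d * t ∣ j ∧ m ∣ s j ∧ j % 30 = a, wv N v j ≤
      (if Nat.Coprime m d then (if Nat.Coprime m t then Xv N v / (30 * d) * (l m * lam t / ((m : ℝ) * t))
        else 0) else 0) + CT * K := by
    intro m hm t ht
    rw [Finset.mem_Icc] at hm ht
    have hCK : 0 ≤ CT * K := (mul_pos hCT hK).le
    by_cases h0 : l m * lam t = 0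
    · rw [h0]
      simp only [zero_mul, zero_div, mul_zero, ite_self, zero_add]
      exact hCK
    have hlm : l m ≠ 0 := left_ne_zero_of_mul h0
    have hlt : lam t ≠ 0 := right_ne_zero_of_mul h0
    have h1 := hs2 (d * t) m (Nat.mul_pos hd1 ht.1) hm.1
      (Nat.Coprime.mul_left hd30 (hlam.2 t hlt).2.1) (hl.2 m hlm).2.1
    set S := ∑ j ∈ COR_W N with d * t ∣ j ∧ m ∣ s j ∧ j % 30 = a, wv N v j with hS
    have h2 : (if Nat.Coprime m d then (if Nat.Coprime m t then Xv N v / (30 * d) *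
        (l m * lam t / ((m : ℝ) * t)) else 0) else 0) = l m * lam t *
        (if Nat.Coprime m (d * t) then Xv N v / (30 * ((d * t : ℕ) : ℝ) * m) else 0) := by
      by_cases h3 : Nat.Coprime m d
      · by_cases h4 : Nat.Coprime m t
        · rw [if_pos h3, if_pos h4, if_pos (Nat.Coprime.mul_right h3 h4)]
          have hd0 : (d : ℝ) ≠ 0 := by exact_mod_cast (by omega : d ≠ 0)
          have hm0 : (m : ℝ) ≠ 0 := by exact_mod_cast (by omega : m ≠ 0)
          have ht0 : (t : ℝ) ≠ 0 := by exact_mod_cast (by omega : t ≠ 0)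
          push_cast
          field_simp
        · rw [if_pos h3, if_neg h4, if_neg (show ¬ Nat.Coprime m (d * t) from
            fun h => h4 (Nat.Coprime.coprime_mul_left_right h)), mul_zero]
      · rw [if_neg h3, if_neg (show ¬ Nat.Coprime m (d * t) from
          fun h => h3 (Nat.Coprime.coprime_mul_right_right h)), mul_zero]
    rw [h2]
    set T := (if Nat.Coprime m (d * t) then Xv N v / (30 * ((d * t : ℕ) : ℝ) * m) else 0) with hT
    have h5 : l m * lam t * S - l m * lam t * T ≤ CT * K := by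
      have h6 : l m * lam t * S - l m * lam t * T ≤ |l m| * |lam t| * |S - T| := by
        rw [← mul_sub, ← abs_mul, ← abs_mul]
        exact le_abs_self _
      have h7 : |l m| * |lam t| ≤ K * 1 :=
        mul_le_mul (hl.1 m) (hlam.1 t) (abs_nonneg _) hK.le
      have h8 : |l m| * |lam t| * |S - T| ≤ K * 1 * CT :=
        mul_le_mul h7 h1 (abs_nonneg _) (by linarith)
      linarith
    linarith
  have step4 : ∑ m ∈ Icc 1 ⌊Q⌋₊, ∑ t ∈ Icc 1 ⌊z⌋₊, l m * lam t *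
        ∑ j ∈ COR_W N with d * t ∣ j ∧ m ∣ s j ∧ j % 30 = a, wv N v j ≤
      ∑ m ∈ Icc 1 ⌊Q⌋₊, ∑ t ∈ Icc 1 ⌊z⌋₊, ((if Nat.Coprime m d then (if Nat.Coprime m t then
        Xv N v / (30 * d) * (l m * lam t / ((m : ℝ) * t)) else 0) else 0) + CT * K) :=
    Finset.sum_le_sum fun m hm => Finset.sum_le_sum fun t ht => step3 m hm t ht
  refine step4.trans ?_
  have step5 : ∑ m ∈ Icc 1 ⌊Q⌋₊, ∑ t ∈ Icc 1 ⌊z⌋₊, ((if Nat.Coprime m d then (if Nat.Coprime m t then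
        Xv N v / (30 * d) * (l m * lam t / ((m : ℝ) * t)) else 0) else 0) + CT * K) =
      Xv N v / (30 * d) * (∑ m ∈ Icc 1 ⌊Q⌋₊ with Nat.Coprime m d, ∑ t ∈ Icc 1 ⌊z⌋₊ with Nat.Coprime m t,
        l m * lam t / ((m : ℝ) * t)) + (⌊Q⌋₊ : ℝ) * ((⌊z⌋₊ : ℝ) * (CT * K)) := by
    rw [Finset.sum_filter, Finset.mul_sum]
    have h1 : (⌊Q⌋₊ : ℝ) * ((⌊z⌋₊ : ℝ) * (CT * K)) = ∑ m ∈ Icc 1 ⌊Q⌋₊, ((⌊z⌋₊ : ℝ) * (CT * K)) := by
      rw [Finset.sum_const, Nat.card_Icc, nsmul_eq_mul, Nat.add_sub_cancel]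
    rw [h1, ← Finset.sum_add_distrib]
    apply Finset.sum_congr rfl
    intro m _
    rw [Finset.sum_add_distrib, Finset.sum_const, Nat.card_Icc, nsmul_eq_mul, Nat.add_sub_cancel]
    by_cases h3 : Nat.Coprime m d
    · simp only [if_pos h3]
      rw [Finset.sum_filter, Finset.mul_sum]
      congr 1
      apply Finset.sum_congr rfl
      intro t _
      split_ifs
      · rfl
      · rw [mul_zero]
    · simp only [if_neg h3, mul_zero, Finset.sum_const_zero]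
  rw [step5]
  have h1 : (⌊Q⌋₊ : ℝ) ≤ Q := Nat.floor_le hQ
  have h2 : (⌊z⌋₊ : ℝ) ≤ z := Nat.floor_le (by linarith)
  have h3 : (⌊Q⌋₊ : ℝ) * (⌊z⌋₊ : ℝ) ≤ Q * z := mul_le_mul h1 h2 (Nat.cast_nonneg _) hQ
  have h4 := mul_le_mul_of_nonneg_right h3 (mul_pos hCT hK).le
  linarith

/-- the asymptotics of `yN` -/
private theorem COR_asy (z₀ D : ℝ) : ∃ N₀ : ℕ, ∀ N : ℕ, N₀ ≤ N → z₀ ≤ yN N ∧
    5 + 4 * Real.log N ≤ yN N ∧ D ≤ (N : ℝ) ^ (9 / 500 : ℝ) := by
  have hL : Filter.Tendsto (fun N : ℕ => Real.log (N : ℝ)) Filter.atTop Filter.atTop :=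
    Real.tendsto_log_atTop.comp tendsto_natCast_atTop_atTop
  have hdl : Filter.Tendsto (fun N : ℕ => dl (N : ℝ)) Filter.atTop Filter.atTop := by
    have := (tendsto_rpow_atTop (by norm_num : (0 : ℝ) < 19 / 20)).comp hL
    exact this
  have hy : Filter.Tendsto (fun N : ℕ => yN N) Filter.atTop Filter.atTop :=
    Real.tendsto_exp_atTop.comp hdl
  have h3 : Filter.Tendsto (fun N : ℕ => (N : ℝ) ^ (9 / 500 : ℝ)) Filter.atTop Filter.atTop :=
    (tendsto_rpow_atTop (by norm_num : (0 : ℝ) < 9 / 500)).comp tendsto_natCast_atTop_atTop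
  have hev : ∀ᶠ N : ℕ in Filter.atTop, z₀ ≤ yN N ∧
      5 + 4 * Real.log N ≤ yN N ∧ D ≤ (N : ℝ) ^ (9 / 500 : ℝ) := by
    filter_upwards [hy.eventually_ge_atTop z₀, hdl.eventually_ge_atTop 30,
      h3.eventually_ge_atTop D, hL.eventually_ge_atTop 1] with N h1 h2 h3 h4
    refine ⟨h1, ?_, h3⟩
    set u := dl (N : ℝ) with hu
    have h5 : Real.log (N : ℝ) ≤ u ^ 2 := by
      have h6 : (u : ℝ) ^ (20 / 19 : ℝ) = Real.log N := by
        rw [hu]
        unfold dl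
        rw [← Real.rpow_mul (by linarith)]
        norm_num
      rw [← h6, ← Real.rpow_natCast]
      exact Real.rpow_le_rpow_of_exponent_le (by linarith) (by norm_num)
    have h7 : u ^ 3 / (Nat.factorial 3 : ℝ) ≤ Real.exp u :=
      Real.pow_div_factorial_le_exp u (by linarith) 3
    have h8 : (Nat.factorial 3 : ℝ) = 6 := by
      norm_num [Nat.factorial]
    rw [h8] at h7
    unfold yN
    rw [← hu]
    have h9 : 5 * u ^ 2 ≤ u ^ 3 / 6 := by nlinarith [sq_nonneg u]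
    nlinarith
  exact Filter.eventually_atTop.1 hev

open Classical in
private theorem COR_fin (N : ℕ) (v : ℝ) (s : ℕ → ℕ) (K z CT CU : ℝ) (l : ℕ → ℝ) (d a : ℕ)
    (hCRD : Pool.Agent.EC.CRD_stmt) (hMTA : Pool.Agent.EC.MTA_stmt)
    (hf : ∀ j : ℕ, 0 ≤ wv N v j) (hf0 : ∀ j : ℕ, wv N v j ≠ 0 → N ^ 3 < j)
    (hX0 : 0 ≤ Xv N v) (hX1 : Xv N v ≤ 6 * (N : ℝ) ^ 2)
    (hN : 4 ≤ N) (hz : 5 + 4 * Real.log N ≤ z) (hz2 : z ≤ (N : ℝ) ^ (1 / 20 : ℝ))
    (hCT : 0 < CT) (hCU : 0 < CU) (hK : 0 < K) (hD : CT * K ≤ (N : ℝ) ^ (9 / 500 : ℝ))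
    (hl : Adm K (QV N) l) (hw : ∀ a : ℕ, 1 ≤ a → 0 ≤ wt l a)
    (lam : ℕ → ℝ) (hlam : Adm 1 z lam) (hwl : ∀ a : ℕ, 1 ≤ a → 0 ≤ wt lam a)
    (hwr : ∀ a : ℕ, rgh z a → 1 ≤ wt lam a) (hmt : Pool.Agent.EC.mt z lam ≤ CU / Real.log z) (hd : rgh z d)
    (hdN : (d : ℝ) ≤ (N : ℝ) ^ (6 / 5 : ℝ))
    (hs1 : ∀ j ∈ COR_W N, 1 ≤ s j)
    (hs2 : ∀ e m : ℕ, 1 ≤ e → 1 ≤ m → Nat.Coprime e 30 → Nat.Coprime m 30 → a < 30 →
      |∑ j ∈ Z3 N with N ^ 3 < j ∧ e ∣ j ∧ m ∣ s j ∧ j % 30 = a, wv N v j -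
        (if Nat.Coprime m e then Xv N v / (30 * (e : ℝ) * m) else 0)| ≤ CT) :
    ∑ j ∈ Z3 N with d ∣ j ∧ rgh z (j / d) ∧ j % 30 = a, wv N v j * wt l (s j) ≤
      CU * (N : ℝ) ^ 2 / (d * Real.log z) * Pool.Agent.EC.mt (QV N) l + (N : ℝ) ^ (9 / 10 : ℝ) := by
  have hN1 : (1 : ℝ) < N := by exact_mod_cast (by omega : 1 < N)
  have hN0 : (0 : ℝ) < N := by linarith
  have hL : 0 < Real.log N := Real.log_pos hN1
  have hz5 : 5 ≤ z := by linarith
  have hlz : 0 < Real.log z := Real.log_pos (by linarith)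
  have hd1 : 1 ≤ d := Nat.pos_of_ne_zero hd.1
  have hd0 : (0 : ℝ) < d := by exact_mod_cast hd1
  have hm1 : 0 ≤ Pool.Agent.EC.mt (QV N) l := hMTA.1 K _ l hl hw
  have hm2 : 0 ≤ Pool.Agent.EC.mt z lam := hMTA.1 1 z lam hlam hwl
  have hR : 0 ≤ CU * (N : ℝ) ^ 2 / (d * Real.log z) * Pool.Agent.EC.mt (QV N) l :=
    mul_nonneg (div_nonneg (by positivity) (mul_pos hd0 hlz).le) hm1
  have hQ0 : 0 ≤ QV N := by
    unfold QV
    positivity
  by_cases ha : a < 30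
  · have h0 : ∑ j ∈ Z3 N with d ∣ j ∧ rgh z (j / d) ∧ j % 30 = a, wv N v j * wt l (s j) =
        ∑ j ∈ COR_W N with d ∣ j ∧ rgh z (j / d) ∧ j % 30 = a, wv N v j * wt l (s j) := by
      symm
      apply Finset.sum_subset
      · intro j hj
        unfold COR_W at hj
        rw [Finset.mem_filter, Finset.mem_filter] at hj
        rw [Finset.mem_filter]
        exact ⟨hj.1.1, hj.2⟩
      · intro j hj hj'
        have h1 : wv N v j = 0 := by
          by_contra h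
          apply hj'
          unfold COR_W
          rw [Finset.mem_filter, Finset.mem_filter]
          rw [Finset.mem_filter] at hj
          exact ⟨⟨hj.1, hf0 j h⟩, hj.2⟩
        rw [h1, zero_mul]
    have hs3 : ∀ e m : ℕ, ∑ j ∈ COR_W N with e ∣ j ∧ m ∣ s j ∧ j % 30 = a, wv N v j =
        ∑ j ∈ Z3 N with N ^ 3 < j ∧ e ∣ j ∧ m ∣ s j ∧ j % 30 = a, wv N v j := by
      intro e m
      unfold COR_W
      rw [Finset.filter_filter]
    rw [h0]
    have h1 := COR_core N v s K (QV N) z CT l lam d a hQ0 hz5 hCT hK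
      hf hl hw hlam hwl hwr hd hs1
      (fun e m h1 h2 h3 h4 => by
        rw [hs3]
        exact hs2 e m h1 h2 h3 h4 ha)
    refine h1.trans ?_
    have h2 := hCRD K (QV N) 1 z l lam d hl hlam hd1 (COR_cop z hz5 d hd) hw hwl
    have h3 := COR_prod N z (by omega) (by linarith) d hd hdN
    have h4 : 0 ≤ Pool.Agent.EC.mt (QV N) l * Pool.Agent.EC.mt z lam := mul_nonneg hm1 hm2
    have h5 : 2 * (∏ p ∈ d.primeFactors, ((p : ℝ) - 1) / (p - 2)) *
        (Pool.Agent.EC.mt (QV N) l * Pool.Agent.EC.mt z lam) ≤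
        4 * (Pool.Agent.EC.mt (QV N) l * (CU / Real.log z)) := by
      have h6 : 2 * (∏ p ∈ d.primeFactors, ((p : ℝ) - 1) / (p - 2)) *
          (Pool.Agent.EC.mt (QV N) l * Pool.Agent.EC.mt z lam) ≤
          4 * (Pool.Agent.EC.mt (QV N) l * Pool.Agent.EC.mt z lam) :=
        mul_le_mul_of_nonneg_right (by linarith) h4
      have h7 := mul_le_mul_of_nonneg_left hmt hm1
      linarith
    have h8 := h2.trans h5
    have h9 : Xv N v / (30 * d) * (∑ m ∈ Icc 1 ⌊QV N⌋₊ with Nat.Coprime m d,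
        ∑ t ∈ Icc 1 ⌊z⌋₊ with Nat.Coprime m t, l m * lam t / ((m : ℝ) * t)) ≤
        Xv N v / (30 * d) * (4 * (Pool.Agent.EC.mt (QV N) l * (CU / Real.log z))) :=
      mul_le_mul_of_nonneg_left h8 (div_nonneg hX0 (by positivity))
    have h10 : Xv N v / (30 * d) * (4 * (Pool.Agent.EC.mt (QV N) l * (CU / Real.log z))) ≤
        CU * (N : ℝ) ^ 2 / (d * Real.log z) * Pool.Agent.EC.mt (QV N) l := by
      have h11 : Xv N v / (30 * d) ≤ 6 * (N : ℝ) ^ 2 / (30 * d) :=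
        div_le_div_of_nonneg_right hX1 (by positivity)
      have h12 : 0 ≤ Pool.Agent.EC.mt (QV N) l * (CU / Real.log z) :=
        mul_nonneg hm1 (div_nonneg hCU.le hlz.le)
      have h13 : Xv N v / (30 * d) * (4 * (Pool.Agent.EC.mt (QV N) l * (CU / Real.log z))) ≤
          6 * (N : ℝ) ^ 2 / (30 * d) * (4 * (Pool.Agent.EC.mt (QV N) l * (CU / Real.log z))) :=
        mul_le_mul_of_nonneg_right h11 (by linarith)
      refine h13.trans ?_
      have h14 : 6 * (N : ℝ) ^ 2 / (30 * d) * (4 * (Pool.Agent.EC.mt (QV N) l * (CU / Real.log z))) =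
          24 / 30 * (CU * (N : ℝ) ^ 2 / (d * Real.log z) * Pool.Agent.EC.mt (QV N) l) := by
        field_simp
        ring
      rw [h14]
      linarith
    have h15 : QV N * z ≤ (N : ℝ) ^ (441 / 500 : ℝ) := by
      have h17 : QV N * z ≤ QV N * (N : ℝ) ^ (1 / 20 : ℝ) :=
        mul_le_mul_of_nonneg_left hz2 hQ0
      unfold QV at h17 ⊢
      rw [← Real.rpow_add hN0] at h17
      norm_num at h17 ⊢
      exact h17
    have h18 : CT * K * (QV N * z) ≤ (N : ℝ) ^ (9 / 10 : ℝ) := by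
      have h19 : CT * K * (QV N * z) ≤
          (N : ℝ) ^ (9 / 500 : ℝ) * (N : ℝ) ^ (441 / 500 : ℝ) :=
        mul_le_mul hD h15 (mul_nonneg hQ0 (by linarith)) (by positivity)
      rw [← Real.rpow_add hN0] at h19
      norm_num at h19 ⊢
      exact h19
    linarith
  · have h1 : (Z3 N).filter (fun j => d ∣ j ∧ rgh z (j / d) ∧ j % 30 = a) = ∅ := by
      rw [Finset.filter_eq_empty_iff]
      rintro j _ ⟨_, _, h⟩
      have := Nat.mod_lt j (by norm_num : 0 < 30)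
      omega
    rw [h1, Finset.sum_empty]
    have : 0 ≤ (N : ℝ) ^ (9 / 10 : ℝ) := by positivity
    linarith

theorem COR (h1 : LCT_stmt) (h2 : Pool.Agent.EC.CRD_stmt) (h3 : Pool.Agent.EC.UPS_stmt) (h4 : WVB_stmt)
    (h5 : Pool.Agent.EC.MTA_stmt) : COR_stmt := by
  obtain ⟨CT, hCT, hLCT⟩ := h1
  obtain ⟨CU, z₀, hCU, hz₀, hUPS⟩ := h3
  obtain ⟨N₁, -, hwvb⟩ := h4
  refine ⟨CU, hCU, ?_⟩
  intro K hK
  obtain ⟨N₀, hN₀⟩ := COR_asy z₀ (CT * K)
  refine ⟨max (max N₀ N₁) 4, ?_⟩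
  intro N hN z hz1 hz2 l hl hw v hv d a hdN hd
  obtain ⟨g1, g2, g3⟩ := hN₀ N ((le_max_left _ _).trans ((le_max_left _ _).trans hN))
  have hN1 : N₁ ≤ N := (le_max_right _ _).trans ((le_max_left _ _).trans hN)
  have hN4 : 4 ≤ N := (le_max_right _ _).trans hN
  obtain ⟨-, x1, x2, x3⟩ := (hwvb N hN1).1 v hv
  have hX0 : 0 ≤ Xv N v := le_trans (by positivity) x1
  obtain ⟨lam, hlam, hwl, hwr, hmt⟩ := hUPS z (g1.trans hz1)
  constructor
  · exact COR_fin N v (fun j => j + 6) K z CT CU l d a h2 h5 (fun j => (x3 j).1)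
      (fun j hj => ((x3 j).2.2.1 hj).1) hX0 x2 hN4 (g2.trans hz1) hz2 hCT
      hCU hK g3 hl hw lam hlam hwl hwr hmt hd hdN (fun j _ => by omega)
      (fun e m k1 k2 k3 k4 k5 => (hLCT N e m a hN4 k1 k2 k3 k4 k5 v hv).1)
  · refine COR_fin N v (fun j => j - 6) K z CT CU l d a h2 h5 (fun j => (x3 j).1)
      (fun j hj => ((x3 j).2.2.1 hj).1) hX0 x2 hN4 (g2.trans hz1) hz2 hCT
      hCU hK g3 hl hw lam hlam hwl hwr hmt hd hdN ?_
      (fun e m k1 k2 k3 k4 k5 => (hLCT N e m a hN4 k1 k2 k3 k4 k5 v hv).2)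
    intro j hj
    unfold COR_W Z3 at hj
    rw [Finset.mem_filter, Finset.mem_Ioc] at hj
    have h4 : 4 ^ 3 ≤ N ^ 3 := Nat.pow_le_pow_left hN4 3
    show 1 ≤ j - 6
    omega

end Pool.Agent.XE
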